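import Pool.Agent.SZT.StmtsB

/-!
# SZT, row NOD: facts about a node (author helper81)
-/

set_option autoImplicit false

open Polynomial

namespace Pool.Agent.SZT.H81

open Pool.Agent.SZT.B

variable {L : Type} [NormedField L] [IsUltrametricDist L]

theorem norm_sub_le_max' (a b : L) : ‖a - b‖ ≤ max ‖a‖ ‖b‖ := by
  rw [sub_eq_add_neg]
  refine (IsUltrametricDist.norm_add_le_max _ _).trans ?_
  rw [norm_neg]

theorem pint_mul {p q : L[X]} (hp : PInt p) (hq : PInt q) : PInt (p * q) := by
  intro n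
  rw [Polynomial.coeff_mul]
  apply IsUltrametricDist.norm_sum_le_of_forall_le_of_nonneg zero_le_one
  intro x _
  rw [norm_mul]
  exact mul_le_one₀ (hp _) (norm_nonneg _) (hq _)

theorem pint_X_sub_C {a : L} (ha : ‖a‖ ≤ 1) : PInt (X - C a) := by
  intro n
  rw [Polynomial.coeff_sub, Polynomial.coeff_X, Polynomial.coeff_C]
  refine (norm_sub_le_max' _ _).trans (max_le ?_ ?_)
  · split_ifs <;> simp
  · split_ifs
    · exact ha
    · simp

omit [IsUltrametricDist L] in
theorem pint_one : PInt (1 : L[X]) := by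
  intro n
  rw [Polynomial.coeff_one]
  split_ifs <;> simp

theorem pint_prod {ι : Type} (s : Finset ι) (θ : ι → L) (hθ : ∀ i, ‖θ i‖ ≤ 1) :
    PInt (∏ i ∈ s, (X - C (θ i))) := by
  classical
  induction s using Finset.induction_on with
  | empty => rw [Finset.prod_empty]; exact pint_one
  | insert a s ha ih =>
    rw [Finset.prod_insert ha]
    exact pint_mul (pint_X_sub_C (hθ a)) ih

theorem pint_derivative {p : L[X]} (hp : PInt p) : PInt (derivative p) := by
  intro n
  rw [Polynomial.coeff_derivative, norm_mul]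
  refine mul_le_one₀ (hp _) (norm_nonneg _) ?_
  have h := IsUltrametricDist.norm_natCast_le_one L (n + 1)
  rwa [Nat.cast_add, Nat.cast_one] at h

theorem pint_eval {p : L[X]} (hp : PInt p) {a : L} (ha : ‖a‖ ≤ 1) : ‖p.eval a‖ ≤ 1 := by
  rw [Polynomial.eval_eq_sum_range]
  apply IsUltrametricDist.norm_sum_le_of_forall_le_of_nonneg zero_le_one
  intro i _
  rw [norm_mul, norm_pow]
  exact mul_le_one₀ (hp _) (by positivity) (pow_le_one₀ (norm_nonneg _) ha)

/-- adding a smaller element -/
theorem norm_add_of_lt {a b : L} (h : ‖a‖ < 1) (hb : ‖b‖ = 1) : ‖a + b‖ = 1 := by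
  rw [IsUltrametricDist.norm_add_eq_max_of_norm_ne_norm (by rw [hb]; exact h.ne), hb]
  exact max_eq_right h.le

theorem nod : NodStmt := by
  intro L _ _ f θ hN
  have h2 : (2 : L) ≠ 0 := by
    intro h
    have := hN.two
    rw [h, norm_zero] at this
    exact zero_ne_one this
  have hne : θ 0 - θ 1 ≠ 0 := sub_ne_zero.2 hN.ne
  have heta : ‖eta θ‖ = ‖θ 0 - θ 1‖ ^ 2 := by
    rw [B.eta, norm_pow, norm_div, hN.two, div_one]
  have hctr : ‖ctr θ‖ ≤ 1 := by
    rw [ctr, norm_div, hN.two, div_one]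
    exact (IsUltrametricDist.norm_add_le_max _ _).trans (max_le (hN.int 0) (hN.int 1))
  have hhalf : ‖(θ 0 - θ 1) / 2‖ < 1 := by
    rw [norm_div, hN.two, div_one]
    exact hN.near
  have hc0 : θ 0 - ctr θ = (θ 0 - θ 1) / 2 := by
    rw [ctr]
    field_simp
    ring
  have hc1 : θ 1 - ctr θ = -((θ 0 - θ 1) / 2) := by
    rw [ctr]
    field_simp
    ring
  -- the other roots
  have hfar : ∀ i : Fin 5, i ≠ 0 → i ≠ 1 → ‖θ i - ctr θ‖ = 1 := by
    intro i h0 h1
    have e : θ i - ctr θ = (θ 0 - θ 1) / 2 + (θ i - θ 0) := by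
      rw [← hc0]
      ring
    rw [e]
    exact norm_add_of_lt hhalf (hN.far i 0 h0 (fun h => h0 h.1) (fun h => h1 h.1))
  have hf2 := hfar 2 (by decide) (by decide)
  have hf3 := hfar 3 (by decide) (by decide)
  have hf4 := hfar 4 (by decide) (by decide)
  have hev : ∀ z : L, ‖z‖ < 1 → ‖(hh θ).eval z‖ = 1 := by
    intro z hz
    have h1 : ∀ c : L, ‖c‖ = 1 → ‖z - c‖ = 1 := by
      intro c hc
      rw [sub_eq_add_neg]
      exact norm_add_of_lt hz (by rw [norm_neg]; exact hc)
    rw [hh]
    simp only [Polynomial.eval_mul, Polynomial.eval_sub, Polynomial.eval_X, Polynomial.eval_C,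
      norm_mul]
    rw [h1 _ hf2, h1 _ hf3, h1 _ hf4]
    norm_num
  have hfint : PInt f := by
    rw [hN.fac]
    exact pint_prod _ _ hN.int
  -- the derivative at a point near `θ i`
  have hsplit : ∀ i : Fin 5, f = (X - C (θ i)) * ∏ j ∈ Finset.univ.erase i, (X - C (θ j)) := by
    intro i
    rw [hN.fac]
    exact (Finset.mul_prod_erase Finset.univ (fun j => X - C (θ j)) (Finset.mem_univ i)).symm
  have hder : ∀ (i : Fin 5) (a : L), (derivative f).eval a =
      (∏ j ∈ Finset.univ.erase i, (a - θ j)) + (a - θ i) *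
        (derivative (∏ j ∈ Finset.univ.erase i, (X - C (θ j)))).eval a := by
    intro i a
    have h1 := hsplit i
    generalize hg : (∏ j ∈ Finset.univ.erase i, (X - C (θ j))) = g at h1
    rw [h1, Polynomial.derivative_mul]
    have h3 : g.eval a = ∏ j ∈ Finset.univ.erase i, (a - θ j) := by
      rw [← hg, Polynomial.eval_prod]
      simp
    rw [← h3]
    simp
  refine ⟨⟨?_, ?_, hctr⟩, ⟨?_, ?_, hev⟩, ?_, ⟨hfint, ?_, ?_⟩, ?_, ?_⟩
  · rw [B.eta]
    exact pow_ne_zero 2 (div_ne_zero hne h2)
  · rw [heta]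
    exact pow_lt_one₀ (norm_nonneg _) hN.near two_ne_zero
  · rw [hh]
    exact pint_mul (pint_mul (pint_X_sub_C hf2.le) (pint_X_sub_C hf3.le)) (pint_X_sub_C hf4.le)
  · rw [Polynomial.coeff_zero_eq_eval_zero]
    exact hev 0 (by simp)
  · intro z
    rw [hN.fac, Polynomial.eval_prod, Fin.prod_univ_five, hh, B.eta]
    simp only [Polynomial.eval_mul, Polynomial.eval_sub, Polynomial.eval_X, Polynomial.eval_C]
    have e0 : ctr θ + z - θ 0 = z - (θ 0 - θ 1) / 2 := by rw [← hc0]; ring
    have e1 : ctr θ + z - θ 1 = z + (θ 0 - θ 1) / 2 := by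
      have := hc1
      linear_combination -this
    rw [e0, e1]
    ring
  · rw [hN.fac]
    exact Polynomial.monic_prod_of_monic _ _ fun i _ => Polynomial.monic_X_sub_C _
  · rw [hN.fac, Polynomial.natDegree_prod_of_monic _ _ fun i _ => Polynomial.monic_X_sub_C _]
    simp
  · intro a ha hac hfa
    have hle : ∀ i, ‖a - θ i‖ ≤ 1 := fun i =>
      (norm_sub_le_max' _ _).trans (max_le ha (hN.int i))
    have hex : ∃ i, ‖a - θ i‖ < 1 := by
      by_contra hno
      push Not at hno
      have h1 : ‖f.eval a‖ = 1 := by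
        rw [hN.fac, Polynomial.eval_prod, norm_prod]
        apply Finset.prod_eq_one
        intro i _
        rw [Polynomial.eval_sub, Polynomial.eval_X, Polynomial.eval_C]
        exact le_antisymm (hle i) (hno i)
      rw [h1] at hfa
      exact lt_irrefl _ hfa
    obtain ⟨i, hi⟩ := hex
    have hi0 : i ≠ 0 := by
      rintro rfl
      have h1 : a - ctr θ = (a - θ 0) + (θ 0 - ctr θ) := by ring
      rw [h1] at hac
      have h3 := IsUltrametricDist.norm_add_le_max (a - θ 0) (θ 0 - ctr θ)
      rw [hc0] at h3 hac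
      exact absurd (hac.trans h3) (not_le.2 (max_lt hi hhalf))
    have hi1 : i ≠ 1 := by
      rintro rfl
      have h1 : a - ctr θ = (a - θ 1) + (θ 1 - ctr θ) := by ring
      rw [h1] at hac
      have h3 := IsUltrametricDist.norm_add_le_max (a - θ 1) (θ 1 - ctr θ)
      rw [hc1] at h3 hac
      exact absurd (hac.trans h3) (not_le.2 (max_lt hi (by rw [norm_neg]; exact hhalf)))
    rw [hder i a, add_comm]
    apply norm_add_of_lt
    · rw [norm_mul]
      have h3 : ‖(derivative (∏ j ∈ Finset.univ.erase i, (X - C (θ j)))).eval a‖ ≤ 1 :=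
        pint_eval (pint_derivative (pint_prod _ _ hN.int)) ha
      calc ‖a - θ i‖ * ‖(derivative (∏ j ∈ Finset.univ.erase i, (X - C (θ j)))).eval a‖
          ≤ ‖a - θ i‖ * 1 := mul_le_mul_of_nonneg_left h3 (norm_nonneg _)
        _ < 1 := by rw [mul_one]; exact hi
    · rw [norm_prod]
      apply Finset.prod_eq_one
      intro j hj
      have hij : i ≠ j := (Finset.ne_of_mem_erase hj).symm
      have e : a - θ j = (a - θ i) + (θ i - θ j) := by ring
      rw [e]
      exact norm_add_of_lt hi (hN.far i j hij (fun h => hi0 h.1) (fun h => hi1 h.1))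
  · have hdf : ∀ i, (derivative f).eval (θ i) = ∏ j ∈ Finset.univ.erase i, (θ i - θ j) := by
      intro i
      rw [hder i (θ i), sub_self, zero_mul, add_zero]
    have hmon : f.Monic := by
      rw [hN.fac]
      exact Polynomial.monic_prod_of_monic _ _ fun i _ => Polynomial.monic_X_sub_C _
    have hroots : f.roots = Finset.univ.val.map θ := by
      rw [hN.fac]
      have := Polynomial.roots_multiset_prod_X_sub_C (Finset.univ.val.map θ)
      rw [Multiset.map_map] at this
      exact this
    have hspl : f.Splits := by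
      rw [hN.fac]
      exact Polynomial.Splits.prod fun i _ => Polynomial.Splits.X_sub_C _
    have hres := Polynomial.resultant_eq_prod_eval f (derivative f) (derivative f).natDegree
      le_rfl hspl
    rw [hmon.leadingCoeff, one_pow, one_mul, hroots, Multiset.map_map] at hres
    rw [hres]
    have h5 : (Multiset.map ((fun x => eval x (derivative f)) ∘ θ) Finset.univ.val).prod =
        ∏ i, (derivative f).eval (θ i) := rfl
    rw [h5, norm_prod, Fin.prod_univ_five]
    simp only [hdf, norm_prod]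
    have hfr : ∀ i j : Fin 5, i ≠ j → ¬ (i = 0 ∧ j = 1) → ¬ (i = 1 ∧ j = 0) →
        ‖θ i - θ j‖ = 1 := hN.far
    have s0 : (Finset.univ.erase 0 : Finset (Fin 5)) = {1, 2, 3, 4} := by decide
    have s1 : (Finset.univ.erase 1 : Finset (Fin 5)) = {0, 2, 3, 4} := by decide
    have s2 : (Finset.univ.erase 2 : Finset (Fin 5)) = {0, 1, 3, 4} := by decide
    have s3 : (Finset.univ.erase 3 : Finset (Fin 5)) = {0, 1, 2, 4} := by decide
    have s4 : (Finset.univ.erase 4 : Finset (Fin 5)) = {0, 1, 2, 3} := by decide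
    have p0 : ∏ j ∈ (Finset.univ.erase 0 : Finset (Fin 5)), ‖θ 0 - θ j‖ = ‖θ 0 - θ 1‖ := by
      rw [← Finset.mul_prod_erase _ _ (by decide : (1 : Fin 5) ∈ (Finset.univ.erase 0))]
      rw [Finset.prod_eq_one, mul_one]
      intro j hj
      rw [Finset.mem_erase, Finset.mem_erase] at hj
      exact hfr 0 j (Ne.symm hj.2.1) (fun h => hj.1 h.2) (fun h => by simp at h)
    have p1 : ∏ j ∈ (Finset.univ.erase 1 : Finset (Fin 5)), ‖θ 1 - θ j‖ = ‖θ 0 - θ 1‖ := by
      rw [← Finset.mul_prod_erase _ _ (by decide : (0 : Fin 5) ∈ (Finset.univ.erase 1))]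
      rw [Finset.prod_eq_one, mul_one, norm_sub_rev]
      intro j hj
      rw [Finset.mem_erase, Finset.mem_erase] at hj
      exact hfr 1 j (Ne.symm hj.2.1) (fun h => by simp at h) (fun h => hj.1 h.2)
    have pk : ∀ i : Fin 5, i ≠ 0 → i ≠ 1 →
        ∏ j ∈ (Finset.univ.erase i : Finset (Fin 5)), ‖θ i - θ j‖ = 1 := by
      intro i h0 h1
      apply Finset.prod_eq_one
      intro j hj
      exact hfr i j (Finset.ne_of_mem_erase hj).symm (fun h => h0 h.1) (fun h => h1 h.1)
    rw [p0, p1, pk 2 (by decide) (by decide), pk 3 (by decide) (by decide),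
      pk 4 (by decide) (by decide), heta]
    ring

end Pool.Agent.SZT.H81
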